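import Mathlib
import Pool.Agent.MP_c4a887_an.DimUpper
import Pool.Agent.MP_c4a887_an.DimLower
import Pool.Agent.MP_c4a887_an.NestMain

set_option autoImplicit false

namespace Pool.Agent.Results.MP_c4a887_an.DimensionConstants

/-- `Good M Q`: the hypotheses of Q1 for the real `d × d` matrix `Q`, namely
`‖exp (-Q)‖ ≤ M` and `exp (tQ)` is column stochastic for every `t ≥ 0`. -/
def Good {d : ℕ} (M : ℝ) (Q : Matrix (Fin d) (Fin d) ℝ) : Prop :=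
  (∀ j : Fin d, ∑ i : Fin d, |NormedSpace.exp (-Q) i j| ≤ M) ∧
  (∀ t : ℝ, 0 ≤ t →
    (∀ i j : Fin d, 0 ≤ NormedSpace.exp (t • Q) i j) ∧
    (∀ j : Fin d, ∑ i : Fin d, NormedSpace.exp (t • Q) i j = 1))

lemma hyp {d : ℕ} {M : ℝ} (hM : 1 ≤ M) {Q : Matrix (Fin d) (Fin d) ℝ} (h : Good M Q) :
    MarkovDim.Hyp M Q := by
  obtain ⟨hoff, hcol⟩ := MarkovBound.generator_of_stochastic Q h.2
  refine ⟨hM, h.1, fun j => ?_, hoff, hcol⟩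
  have h2 := h.2 1 zero_le_one
  rw [one_smul] at h2
  simp only [abs_of_nonneg (h2.1 _ j)]
  exact (h2.2 j).le

/-- The linear bound in dimension `d`: the rates `|q_jj|` satisfy
`∑ q_jj ^ 2 ≤ log M ∑ |q_jj|` and hence `‖Q‖ ≤ (1 + √d) log M`; for `2 ≤ d ≤ 5` even
`‖Q‖ ≤ 4 (1 - 1/d) log M`; and in every dimension `d ≥ 2` no constant smaller than
`4 (1 - 1/d)` is possible, even for large `M` only; a constant valid in all dimensions cannot be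
smaller than `33/10 + (7/10) exp (13/10) = 5.868...`. -/
theorem result :
    (∀ M : ℝ, 1 ≤ M → ∀ d : ℕ, ∀ Q : Matrix (Fin d) (Fin d) ℝ, Good M Q →
      (∑ j : Fin d, (Q j j) ^ 2 ≤ Real.log M * ∑ j : Fin d, |Q j j|) ∧
      ∀ j : Fin d, ∑ i : Fin d, |Q i j| ≤ (1 + Real.sqrt d) * Real.log M) ∧
    (∀ M : ℝ, 1 ≤ M → ∀ d : ℕ, 2 ≤ d → d ≤ 5 → ∀ Q : Matrix (Fin d) (Fin d) ℝ, Good M Q →
      ∀ j : Fin d, ∑ i : Fin d, |Q i j| ≤ 4 * (1 - 1 / (d : ℝ)) * Real.log M) ∧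
    (∀ d : ℕ, 2 ≤ d → ∀ κ : ℝ, κ < 4 * (1 - 1 / (d : ℝ)) →
      ∃ M₀ : ℝ, ∀ M : ℝ, M₀ ≤ M → ∃ Q : Matrix (Fin d) (Fin d) ℝ, Good M Q ∧
        ∃ j : Fin d, κ * Real.log M ≤ ∑ i : Fin d, |Q i j|) ∧
    (∀ κ : ℝ, κ < 33 / 10 + 7 / 10 * Real.exp (13 / 10) →
      ∃ (d : ℕ) (M₀ : ℝ), ∀ M : ℝ, M₀ ≤ M → ∃ Q : Matrix (Fin d) (Fin d) ℝ, Good M Q ∧
        ∃ j : Fin d, κ * Real.log M ≤ ∑ i : Fin d, |Q i j|) := by
  refine ⟨?_, ?_, ?_, ?_⟩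
  · intro M hM d Q hQ
    have H := hyp hM hQ
    refine ⟨?_, fun j => ?_⟩
    · have h1 := MarkovDim.sum_sq_le H
      have h2 : ∑ j : Fin d, |Q j j| = ∑ j, -Q j j := Finset.sum_congr rfl fun j _ =>
        abs_of_nonpos (by have := MarkovDim.rate_nonneg H j; linarith)
      have h3 : ∑ j : Fin d, (Q j j) ^ 2 = ∑ j, (-Q j j) ^ 2 :=
        Finset.sum_congr rfl fun j _ => (neg_sq _).symm
      rw [h2, h3]
      exact h1
    · rw [MarkovDim.col_norm H j]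
      exact MarkovDim.sqrt_bound H j
  · intro M hM d hd hd5 Q hQ j
    have H := hyp hM hQ
    rw [MarkovDim.col_norm H j]
    exact MarkovDim.small_bound H hd hd5 j
  · intro d hd κ hκ
    obtain ⟨M₀, h⟩ := MarkovDim.lower_bound hd hκ
    refine ⟨M₀, fun M hM => ?_⟩
    obtain ⟨Q, h1, h2, h3⟩ := h M hM
    exact ⟨Q, ⟨h1, h2⟩, h3⟩
  · intro κ hκ
    obtain ⟨d, M₀, h⟩ := MarkovNest.nested_lower hκ
    refine ⟨d, M₀, fun M hM => ?_⟩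
    obtain ⟨Q, h1, h2, h3⟩ := h M hM
    exact ⟨Q, ⟨h1, h2⟩, h3⟩

end Pool.Agent.Results.MP_c4a887_an.DimensionConstants
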