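import Mathlib
import Pool.Agent.MP_c4a887_an.Matrix
import Pool.Agent.MP_c4a887_an.DimSmooth

set_option autoImplicit false

namespace Pool.Agent.Results.MP_c4a887_an.ExplicitBound

/-- An explicit, dimension-free and polylogarithmic constant `C(M)` in the decoupled Markov group
problem: under the hypotheses of Q1,
`‖Q‖ ≤ min (min (M ^ 2 / 2) (√2 M)) (32 e ^ 4 (log M + 4) ^ 3)`. -/
theorem result :
    ∀ M : ℝ, 1 ≤ M →
      ∀ d : ℕ, ∀ Q : Matrix (Fin d) (Fin d) ℝ,
        (∀ j : Fin d, ∑ i : Fin d, |NormedSpace.exp (-Q) i j| ≤ M) →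
        (∀ t : ℝ, 0 ≤ t →
          (∀ i j : Fin d, 0 ≤ NormedSpace.exp (t • Q) i j) ∧
          (∀ j : Fin d, ∑ i : Fin d, NormedSpace.exp (t • Q) i j = 1)) →
        ∀ j : Fin d, ∑ i : Fin d, |Q i j| ≤
          min (min (M ^ 2 / 2) (Real.sqrt 2 * M))
            (32 * Real.exp 4 * (Real.log M + 4) ^ 3) := by
  intro M hM d Q hinv hst j
  have h := MarkovBound.norm_bound hM Q hinv hst j
  obtain ⟨hoff, hcol⟩ := MarkovBound.generator_of_stochastic Q hst
  have hsum : ∑ i : Fin d, |Q i j| = 2 * (-Q j j) := by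
    have h1 := hcol j
    rw [← Finset.add_sum_erase _ _ (Finset.mem_univ j)] at h1 ⊢
    have h2 : ∑ x ∈ Finset.univ.erase j, |Q x j| = ∑ x ∈ Finset.univ.erase j, Q x j := by
      refine Finset.sum_congr rfl fun x hx => ?_
      exact abs_of_nonneg (hoff x j (Finset.ne_of_mem_erase hx))
    have h3 : 0 ≤ ∑ x ∈ Finset.univ.erase j, Q x j :=
      Finset.sum_nonneg fun x hx => hoff x j (Finset.ne_of_mem_erase hx)
    rw [h2, abs_of_nonpos (by linarith)]
    linarith
  have h3 : ∑ i : Fin d, |Q i j| ≤ Real.sqrt 2 * M := by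
    rw [hsum]
    exact MarkovDim.linear_bound hM Q hinv hoff hcol j
  exact le_min (le_min h.2 h3) h.1

end Pool.Agent.Results.MP_c4a887_an.ExplicitBound
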