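import Mathlib
import Pool.Agent.MP_c4a887_an.DimUpper
import Pool.Agent.MP_c4a887_an.DimSmall

set_option autoImplicit false

namespace Pool.Agent.Results.MP_c4a887_an.NearOne

/-- `Good M Q`: the hypotheses of Q1 for the real `d × d` matrix `Q`, namely
`‖exp (-Q)‖ ≤ M` and `exp (tQ)` is column stochastic for every `t ≥ 0`. -/
def Good {d : ℕ} (M : ℝ) (Q : Matrix (Fin d) (Fin d) ℝ) : Prop :=
  (∀ j : Fin d, ∑ i : Fin d, |NormedSpace.exp (-Q) i j| ≤ M) ∧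
  (∀ t : ℝ, 0 ≤ t →
    (∀ i j : Fin d, 0 ≤ NormedSpace.exp (t • Q) i j) ∧
    (∀ j : Fin d, ∑ i : Fin d, NormedSpace.exp (t • Q) i j = 1))

lemma norm_eq {d : ℕ} {M : ℝ} (hM : 1 ≤ M) {Q : Matrix (Fin d) (Fin d) ℝ} (h : Good M Q)
    (j : Fin d) : ∑ i : Fin d, |Q i j| = 2 * (-Q j j) := by
  obtain ⟨hoff, hcol⟩ := MarkovBound.generator_of_stochastic Q h.2
  have H : MarkovDim.Hyp M Q := by
    refine ⟨hM, h.1, fun j => ?_, hoff, hcol⟩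
    have h2 := h.2 1 zero_le_one
    rw [one_smul] at h2
    simp only [abs_of_nonneg (h2.1 _ j)]
    exact (h2.2 j).le
  exact MarkovDim.col_norm H j

/-- The dimension-free constant of Q1 near `M = 1`: `‖Q‖ ≤ log (M / (2 - M))` for `1 ≤ M < 2`,
`‖Q‖ ≤ (M - 1) - (M - 1) ^ 2 / 4 + (M - 1) ^ 3` for `1 ≤ M ≤ 6/5`, and for every `M ≥ 1` the value
`2 log ((M + 1) / 2) ≥ (M - 1) - (M - 1) ^ 2 / 4` is attained. -/
theorem result :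
    (∀ M : ℝ, 1 ≤ M → M < 2 → ∀ d : ℕ, ∀ Q : Matrix (Fin d) (Fin d) ℝ, Good M Q →
      ∀ j : Fin d, ∑ i : Fin d, |Q i j| ≤ Real.log (M / (2 - M))) ∧
    (∀ M : ℝ, 1 ≤ M → M ≤ 6 / 5 → ∀ d : ℕ, ∀ Q : Matrix (Fin d) (Fin d) ℝ, Good M Q →
      ∀ j : Fin d, ∑ i : Fin d, |Q i j| ≤ (M - 1) - (M - 1) ^ 2 / 4 + (M - 1) ^ 3) ∧
    (∀ M : ℝ, 1 ≤ M → (M - 1) - (M - 1) ^ 2 / 4 ≤ 2 * Real.log ((M + 1) / 2) ∧
      ∃ Q : Matrix (Fin 2) (Fin 2) ℝ, Good M Q ∧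
        ∃ j : Fin 2, 2 * Real.log ((M + 1) / 2) ≤ ∑ i : Fin 2, |Q i j|) := by
  refine ⟨?_, ?_, ?_⟩
  · intro M hM hM2 d Q hQ j
    rw [norm_eq hM hQ j]
    exact MarkovDim.small_M_bound hM hM2 Q hQ.1 hQ.2 j
  · intro M hM hM2 d Q hQ j
    rw [norm_eq hM hQ j]
    exact MarkovDim.near_one_bound hM hM2 Q hQ.1 hQ.2 j
  · intro M hM
    constructor
    · obtain ⟨y, hy⟩ : ∃ y : ℝ, y = (M - 1) / 2 := ⟨_, rfl⟩
      have hy0 : 0 ≤ y := by rw [hy]; linarith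
      have h1 := Real.le_log_one_add_of_nonneg hy0
      have h2 : (M + 1) / 2 = 1 + y := by rw [hy]; ring
      have h3 : (M - 1) - (M - 1) ^ 2 / 4 = 2 * (y - y ^ 2 / 2) := by rw [hy]; ring
      rw [h2, h3]
      have h4 : y - y ^ 2 / 2 ≤ 2 * y / (y + 2) := by
        rw [le_div_iff₀ (by linarith)]
        nlinarith [pow_nonneg hy0 3]
      linarith
    · obtain ⟨Q, h1, h2, h3⟩ := MarkovDim.two_state hM
      exact ⟨Q, ⟨h1, h2⟩, h3⟩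

end Pool.Agent.Results.MP_c4a887_an.NearOne
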