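import Mathlib
import Pool.Agent.MP_c4a887_an.ScaleMain
import Pool.Agent.MP_c4a887_an.DimDepth

set_option autoImplicit false

namespace Pool.Agent.Results.MP_c4a887_an.RateScales

/-- `Good M Q`: the hypotheses of Q1 for the real `d × d` matrix `Q`, namely
`‖exp (-Q)‖ ≤ M` and `exp (tQ)` is column stochastic for every `t ≥ 0`. -/
def Good {d : ℕ} (M : ℝ) (Q : Matrix (Fin d) (Fin d) ℝ) : Prop :=
  (∀ j : Fin d, ∑ i : Fin d, |NormedSpace.exp (-Q) i j| ≤ M) ∧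
  (∀ t : ℝ, 0 ≤ t →
    (∀ i j : Fin d, 0 ≤ NormedSpace.exp (t • Q) i j) ∧
    (∀ j : Fin d, ∑ i : Fin d, NormedSpace.exp (t • Q) i j = 1))

/-- `Depth s Q`: `Q` is a Markov generator (nonnegative off-diagonal entries, column sums zero)
and every complex eigenvalue of `Q` has real part at least `-s`. -/
def Depth {d : ℕ} (s : ℝ) (Q : Matrix (Fin d) (Fin d) ℝ) : Prop :=
  (∀ i j : Fin d, i ≠ j → 0 ≤ Q i j) ∧ (∀ j : Fin d, ∑ i : Fin d, Q i j = 0) ∧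
  ∀ μ ∈ spectrum ℂ (Q.map (fun x : ℝ => (x : ℂ))), -s ≤ μ.re

/-- the states whose rate `|q_jj|` is larger than `ρ` -/
noncomputable def fast {d : ℕ} (ρ : ℝ) (Q : Matrix (Fin d) (Fin d) ℝ) : Finset (Fin d) :=
  Finset.univ.filter fun j => ρ < |Q j j|

lemma deep {d : ℕ} {s : ℝ} {Q : Matrix (Fin d) (Fin d) ℝ} (h : Depth s Q) :
    MarkovScale.Deep s Q := by
  refine ⟨h.1, h.2.1, fun μ hμ => ?_⟩
  have h1 : -μ ∈ spectrum ℂ (MarkovDim.cx Q) := by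
    have h2 := MarkovDim.mem_R Q hμ
    rw [map_neg, ← spectrum.neg_eq] at h2
    exact Set.mem_neg.mp h2
  have h2 := h.2.2 (-μ) h1
  rw [Complex.neg_re] at h2
  linarith

lemma fast_eq {d : ℕ} {s : ℝ} {Q : Matrix (Fin d) (Fin d) ℝ} (h : MarkovScale.Deep s Q) (ρ : ℝ) :
    fast ρ Q = Finset.univ.filter fun j => ρ < -Q j j := by
  unfold fast
  congr 1
  funext j
  rw [h.abs_diag j]

lemma depth_of_good {d : ℕ} {M : ℝ} (hM : 1 ≤ M) {Q : Matrix (Fin d) (Fin d) ℝ} (h : Good M Q) :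
    Depth (Real.log M) Q := by
  obtain ⟨hoff, hcol⟩ := MarkovBound.generator_of_stochastic Q h.2
  refine ⟨hoff, hcol, fun μ hμ => ?_⟩
  have h1 : -μ ∈ spectrum ℂ (MarkovDim.cx (-Q)) := by
    rw [map_neg, ← spectrum.neg_eq, Set.mem_neg, neg_neg]
    exact hμ
  have h2 := MarkovDim.re_le_log (-Q) hM h.1 h1
  rw [Complex.neg_re] at h2
  linarith

/-- The rates `|q_jj|` of a Markov generator of spectral depth `s` at all scales `ρ ≥ s / 2`. -/
theorem result :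
    (∀ (d : ℕ) (Q : Matrix (Fin d) (Fin d) ℝ) (s : ℝ), Depth s Q →
      (∀ ρ : ℝ, 0 < ρ → s ≤ 2 * ρ →
        ∑ j ∈ fast ρ Q, (Q j j) ^ 2 ≤ 68 * ρ ^ 2 * (fast ρ Q).card) ∧
      (∀ ρ : ℝ, 0 < ρ → s ≤ 2 * ρ → (∃ j : Fin d, ρ < |Q j j|) →
        ∃ j : Fin d, ρ < |Q j j| ∧ |Q j j| ≤ Real.sqrt 68 * ρ) ∧
      (∀ k : ℕ, ((fast (s / 2) Q).image fun j => |Q j j|).card ≤ k →
        ∀ j : Fin d, ∑ i : Fin d, |Q i j| ≤ Real.sqrt 68 ^ k * s) ∧
      (∀ j : Fin d, ∑ i : Fin d, |Q i j| ≤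
        max 1 (Real.sqrt (68 * (fast (s / 2) Q).card)) * s) ∧
      (∀ θ L : ℝ, 0 < θ → (∀ j : Fin d, |Q j j| ≤ L) → (∃ j : Fin d, θ * L ≤ |Q j j|) →
        (∀ j : Fin d, θ * L ≤ |Q j j| ∨ |Q j j| ≤ θ * L / 9) →
        ∀ j : Fin d, ∑ i : Fin d, |Q i j| ≤ 9 / θ * s)) ∧
    (∀ (M : ℝ), 1 ≤ M → ∀ (d : ℕ) (Q : Matrix (Fin d) (Fin d) ℝ), Good M Q →
      Depth (Real.log M) Q) := by
  refine ⟨?_, fun M hM d Q h => depth_of_good hM h⟩
  · intro d Q s hd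
    have H := deep hd
    refine ⟨?_, ?_, ?_, ?_, ?_⟩
    · intro ρ hρ hs
      rw [fast_eq H]
      exact MarkovScale.scale_bound H hρ hs
    · intro ρ hρ hs hne
      obtain ⟨j0, hj0⟩ := hne
      obtain ⟨j, hj1, hj2⟩ := MarkovScale.no_gap H hρ hs ⟨j0, by rwa [H.abs_diag] at hj0⟩
      refine ⟨j, by rwa [H.abs_diag], ?_⟩
      refine (pow_le_pow_iff_left₀ (abs_nonneg _)
        (mul_nonneg (Real.sqrt_nonneg _) hρ.le) two_ne_zero).1 ?_
      rw [mul_pow, Real.sq_sqrt (by norm_num), sq_abs]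
      exact hj2
    · intro k hk j
      rw [fast_eq H] at hk
      refine MarkovScale.distinct_bound H k ?_ j
      have h1 : (fun j : Fin d => |Q j j|) = fun j => -Q j j := funext fun j => H.abs_diag j
      rwa [h1] at hk
    · intro j
      rw [fast_eq H]
      exact MarkovScale.number_bound H j
    · intro θ L hθ hL hex hgap j
      simp only [H.abs_diag] at hL hex hgap
      exact MarkovScale.two_groups H hθ hL hex hgap j

end Pool.Agent.Results.MP_c4a887_an.RateScales
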